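import Pool.Agent.Helper19.RD.Stmts8

/-! Row EXT of rd8: extremal class. -/

set_option autoImplicit false

namespace Pool.Agent.Helper47.RD8

open Finset Pool.Agent.Helper18.RD Pool.Agent.Helper19.RD

lemma fac_eq {p b : ℕ} (hp : p.Prime) {z : ℤ} (h1 : (p : ℤ) ^ b ∣ z)
    (h2 : ¬ (p : ℤ) ^ (b + 1) ∣ z) : z.natAbs.factorization p = b := by
  have hz : z.natAbs ≠ 0 := by
    intro h0
    apply h2
    rw [Int.natAbs_eq_zero.mp h0]
    exact dvd_zero _
  have h1' : p ^ b ∣ z.natAbs := by
    rw [← Int.natCast_dvd_natCast, Int.dvd_natAbs]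
    exact_mod_cast h1
  have h2' : ¬ p ^ (b + 1) ∣ z.natAbs := by
    intro h
    apply h2
    rw [← Int.natCast_dvd_natCast, Int.dvd_natAbs] at h
    exact_mod_cast h
  have e1 := (hp.pow_dvd_iff_le_factorization hz).mp h1'
  have e2 : ¬ (b + 1 ≤ z.natAbs.factorization p) := fun h =>
    h2' ((hp.pow_dvd_iff_le_factorization hz).mpr h)
  omega

lemma sq_dvd {p : ℕ} {u : ℕ} {x : ℤ} (h : (p : ℤ) ^ (2 * u) ∣ x ^ 2) : (p : ℤ) ^ u ∣ x := by
  have h' : ((p : ℤ) ^ u) ^ 2 ∣ x ^ 2 := by
    rw [← pow_mul, mul_comm u 2]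
    exact h
  exact (Int.pow_dvd_pow_iff (by norm_num)).mp h'

lemma sq_dvd1 {p : ℕ} (hp : p.Prime) {u : ℕ} {x : ℤ} (h : (p : ℤ) ^ (2 * u + 1) ∣ x ^ 2) :
    (p : ℤ) ^ (u + 1) ∣ x := by
  have h0 : (p : ℤ) ^ u ∣ x := sq_dvd ((pow_dvd_pow (p : ℤ) (by omega)).trans h)
  obtain ⟨y, rfl⟩ := h0
  have hp0 : (p : ℤ) ^ (2 * u) ≠ 0 := pow_ne_zero _ (by exact_mod_cast hp.ne_zero)
  have h1 : (p : ℤ) ^ (2 * u) * p ∣ (p : ℤ) ^ (2 * u) * y ^ 2 := by
    have e1 : (p : ℤ) ^ (2 * u) * p = (p : ℤ) ^ (2 * u + 1) := by ring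
    have e2 : (p : ℤ) ^ (2 * u) * y ^ 2 = ((p : ℤ) ^ u * y) ^ 2 := by ring
    rw [e1, e2]
    exact h
  have h2 := (mul_dvd_mul_iff_left hp0).mp h1
  have hpp : Prime (p : ℤ) := Nat.prime_iff_prime_int.mp hp
  have h3 : (p : ℤ) ∣ y := hpp.dvd_of_dvd_pow h2
  rw [pow_succ]
  exact mul_dvd_mul_left _ h3

open Classical in
/-- the exponent -/
noncomputable def bb (q g : ℕ) (m0 : ℤ) (p : ℕ) : ℕ :=
  if p ∣ q ∨ ¬ p ∣ g then 0
  else if (p : ℤ) ^ (g.factorization p) ∣ m0 ^ 2 then g.factorization p / 2
  else m0.natAbs.factorization p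

lemma loc {p q : ℕ} (hp : p.Prime) (hp2 : p ≠ 2) (hq : ¬ p ∣ q) {a : ℤ} {m0 mi mj n0 i j : ℤ}
    (s0 : m0 ^ 2 = q * n0 + a) (si : mi ^ 2 = q * i + a) (sj : mj ^ 2 = q * j + a) {v b : ℕ}
    (di : (p : ℤ) ^ v ∣ i - n0) (dj : (p : ℤ) ^ v ∣ j - n0)
    (hex : ¬ (p : ℤ) ^ (v + 1) ∣ i - j)
    (hb1 : (p : ℤ) ^ v ∣ m0 ^ 2 → b = v / 2)
    (hb2 : ¬ (p : ℤ) ^ v ∣ m0 ^ 2 → b = m0.natAbs.factorization p)
    (hf : (p : ℤ) ^ (b + 1) ∣ mi - m0 ↔ (p : ℤ) ^ (b + 1) ∣ mj - m0) :
    (p : ℤ) ^ b ∣ mi + mj ∧ ¬ (p : ℤ) ^ (b + 1) ∣ mi + mj := by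
  have hpp : Prime (p : ℤ) := Nat.prime_iff_prime_int.mp hp
  have hcop : ∀ t : ℕ, IsCoprime ((p : ℤ) ^ t) (q : ℤ) := by
    intro t
    apply IsCoprime.pow_left
    rw [Int.isCoprime_iff_gcd_eq_one, Int.gcd_natCast_natCast]
    exact (Nat.Prime.coprime_iff_not_dvd hp).mpr hq
  have hq1 : (p : ℤ) ^ (v + 1) ∣ (mi + mj) * (mi - mj) → False := by
    intro h
    apply hex
    have e1 : (mi + mj) * (mi - mj) = q * (i - j) := by linear_combination si - sj
    rw [e1] at h
    exact (hcop _).dvd_of_dvd_mul_left h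
  have ei : mi ^ 2 = m0 ^ 2 + q * (i - n0) := by linear_combination si - s0
  have ej : mj ^ 2 = m0 ^ 2 + q * (j - n0) := by linear_combination sj - s0
  by_cases hv : (p : ℤ) ^ v ∣ m0 ^ 2
  · have hb := hb1 hv
    have vi : (p : ℤ) ^ v ∣ mi ^ 2 := by
      rw [ei]
      exact dvd_add hv (Dvd.dvd.mul_left di _)
    have vj : (p : ℤ) ^ v ∣ mj ^ 2 := by
      rw [ej]
      exact dvd_add hv (Dvd.dvd.mul_left dj _)
    rcases Nat.even_or_odd' v with ⟨u, hu | hu⟩
    · have hbu : b = u := by omega
      subst hbu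
      have xi : (p : ℤ) ^ b ∣ mi := sq_dvd (by rw [← hu]; exact vi)
      have xj : (p : ℤ) ^ b ∣ mj := sq_dvd (by rw [← hu]; exact vj)
      refine ⟨dvd_add xi xj, fun h => hq1 ?_⟩
      have e2 : (p : ℤ) ^ (v + 1) = (p : ℤ) ^ (b + 1) * (p : ℤ) ^ b := by
        rw [hu, ← pow_add]
        congr 1
        ring
      rw [e2]
      exact mul_dvd_mul h (dvd_sub xi xj)
    · exfalso
      have xi : (p : ℤ) ^ (u + 1) ∣ mi := sq_dvd1 hp (by rw [← hu]; exact vi)
      have xj : (p : ℤ) ^ (u + 1) ∣ mj := sq_dvd1 hp (by rw [← hu]; exact vj)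
      apply hq1
      have e2 : (p : ℤ) ^ (v + 1) = (p : ℤ) ^ (u + 1) * (p : ℤ) ^ (u + 1) := by
        rw [hu, ← pow_add]
        congr 1
        ring
      rw [e2]
      exact mul_dvd_mul (dvd_add xi xj) (dvd_sub xi xj)
  · have hb := hb2 hv
    have hm0 : m0.natAbs ≠ 0 := by
      intro h
      apply hv
      rw [Int.natAbs_eq_zero.mp h]
      simp
    have b1 : (p : ℤ) ^ b ∣ m0 := by
      have := (hp.pow_dvd_iff_le_factorization hm0).mpr (le_of_eq hb)
      rw [← Int.natCast_dvd_natCast, Int.dvd_natAbs] at this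
      exact_mod_cast this
    have b2 : ¬ (p : ℤ) ^ (b + 1) ∣ m0 := by
      intro h
      have h' : p ^ (b + 1) ∣ m0.natAbs := by
        rw [← Int.natCast_dvd_natCast, Int.dvd_natAbs]
        exact_mod_cast h
      have := (hp.pow_dvd_iff_le_factorization hm0).mp h'
      omega
    have b3 : 2 * b + 1 ≤ v := by
      by_contra hcon
      apply hv
      have : (p : ℤ) ^ v ∣ ((p : ℤ) ^ b) ^ 2 := by
        rw [← pow_mul]
        exact pow_dvd_pow _ (by omega)
      exact this.trans (pow_dvd_pow_of_dvd b1 2)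
    have key : ∀ mn n : ℤ, mn ^ 2 = m0 ^ 2 + q * (n - n0) → (p : ℤ) ^ v ∣ n - n0 →
        (p : ℤ) ^ b ∣ mn ∧ ((p : ℤ) ^ (b + 1) ∣ mn - m0 ∨ (p : ℤ) ^ (b + 1) ∣ mn + m0) := by
      intro mn n en dn
      have hd : (p : ℤ) ^ (2 * b + 1) ∣ q * (n - n0) :=
        Dvd.dvd.mul_left ((pow_dvd_pow _ b3).trans dn) _
      have hmn : (p : ℤ) ^ b ∣ mn := by
        apply sq_dvd
        rw [en]
        apply dvd_add
        · rw [mul_comm 2 b, pow_mul]
          exact pow_dvd_pow_of_dvd b1 2
        · exact (pow_dvd_pow _ (by omega)).trans hd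
      refine ⟨hmn, ?_⟩
      obtain ⟨x, hx⟩ := hmn
      obtain ⟨y, hy⟩ := b1
      have hp0 : (p : ℤ) ^ (2 * b) ≠ 0 := pow_ne_zero _ (by exact_mod_cast hp.ne_zero)
      have h1 : (p : ℤ) ^ (2 * b) * p ∣ (p : ℤ) ^ (2 * b) * ((x - y) * (x + y)) := by
        have e1 : (p : ℤ) ^ (2 * b) * p = (p : ℤ) ^ (2 * b + 1) := by ring
        have e2 : (p : ℤ) ^ (2 * b) * ((x - y) * (x + y)) = q * (n - n0) := by
          have : (p : ℤ) ^ (2 * b) * ((x - y) * (x + y)) = mn ^ 2 - m0 ^ 2 := by
            rw [hx, hy]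
            ring
          rw [this, en]
          ring
        rw [e1, e2]
        exact hd
      have h2 := (mul_dvd_mul_iff_left hp0).mp h1
      rcases hpp.dvd_or_dvd h2 with h3 | h3
      · left
        rw [hx, hy, ← mul_sub, pow_succ]
        exact mul_dvd_mul_left _ h3
      · right
        rw [hx, hy, ← mul_add, pow_succ]
        exact mul_dvd_mul_left _ h3
    obtain ⟨xi, ci⟩ := key mi i ei di
    obtain ⟨xj, cj⟩ := key mj j ej dj
    refine ⟨dvd_add xi xj, fun h => ?_⟩
    have h2m : ¬ (p : ℤ) ^ (b + 1) ∣ 2 * m0 := by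
      intro h2
      apply b2
      have hc : IsCoprime ((p : ℤ) ^ (b + 1)) (2 : ℤ) := by
        apply IsCoprime.pow_left
        rw [Int.isCoprime_iff_gcd_eq_one]
        have := (Nat.coprime_primes hp Nat.prime_two).mpr hp2
        exact_mod_cast this
      exact hc.dvd_of_dvd_mul_left h2
    by_cases hi : (p : ℤ) ^ (b + 1) ∣ mi - m0
    · have hj := hf.mp hi
      apply h2m
      have e : 2 * m0 = (mi + mj) - (mi - m0) - (mj - m0) := by ring
      rw [e]
      exact dvd_sub (dvd_sub h hi) hj
    · have hj : ¬ (p : ℤ) ^ (b + 1) ∣ mj - m0 := fun h => hi (hf.mpr h)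
      have hi' := ci.resolve_left hi
      have hj' := cj.resolve_left hj
      apply h2m
      have e : 2 * m0 = (mi + m0) + (mj + m0) - (mi + mj) := by ring
      rw [e]
      exact dvd_sub (dvd_add hi' hj') h

lemma omega_le (θ : ℝ) (hθ : 0 < θ) : ∃ C : ℝ, 1 ≤ C ∧ ∀ g : ℕ, 1 ≤ g →
    (2 : ℝ) ^ g.primeFactors.card ≤ C * (g : ℝ) ^ θ := by
  obtain ⟨M, hM⟩ := exists_nat_ge ((2 : ℝ) ^ (1 / θ))
  refine ⟨2 ^ M, one_le_pow₀ (by norm_num), fun g hg => ?_⟩
  have hM2 : ∀ p : ℕ, M ≤ p → (2 : ℝ) ≤ (p : ℝ) ^ θ := by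
    intro p hpM
    have h1 : (2 : ℝ) ^ (1 / θ) ≤ p := hM.trans (by exact_mod_cast hpM)
    calc (2 : ℝ) = ((2 : ℝ) ^ (1 / θ)) ^ θ := by
          rw [← Real.rpow_mul (by norm_num), one_div, inv_mul_cancel₀ hθ.ne', Real.rpow_one]
      _ ≤ (p : ℝ) ^ θ := Real.rpow_le_rpow (by positivity) h1 hθ.le
  have hsplit := Finset.card_filter_add_card_filter_not (s := g.primeFactors) (fun p => p < M)
  have hsmall : (g.primeFactors.filter (fun p => p < M)).card ≤ M := by
    calc (g.primeFactors.filter (fun p => p < M)).card ≤ (range M).card := by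
          apply card_le_card
          intro p hp
          rw [mem_filter] at hp
          exact mem_range.mpr hp.2
      _ = M := card_range M
  have hbig : (2 : ℝ) ^ (g.primeFactors.filter (fun p => ¬ p < M)).card ≤ (g : ℝ) ^ θ := by
    calc (2 : ℝ) ^ (g.primeFactors.filter (fun p => ¬ p < M)).card
        = ∏ p ∈ g.primeFactors.filter (fun p => ¬ p < M), (2 : ℝ) := by rw [prod_const]
      _ ≤ ∏ p ∈ g.primeFactors.filter (fun p => ¬ p < M), (p : ℝ) ^ θ := by
          apply prod_le_prod
          · intro p _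
            norm_num
          · intro p hp
            rw [mem_filter] at hp
            exact hM2 p (by omega)
      _ = (∏ p ∈ g.primeFactors.filter (fun p => ¬ p < M), (p : ℝ)) ^ θ := by
          rw [Real.finsetProd_rpow]
          intro p _
          positivity
      _ ≤ (g : ℝ) ^ θ := by
          apply Real.rpow_le_rpow
          · positivity
          · have h1 : ∏ p ∈ g.primeFactors.filter (fun p => ¬ p < M), p ≤ g := by
              apply Nat.le_of_dvd (by omega)
              exact (prod_dvd_prod_of_subset _ _ _ (filter_subset _ _)).trans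
                (Nat.prod_primeFactors_dvd g)
            have h2 : ((∏ p ∈ g.primeFactors.filter (fun p => ¬ p < M), p : ℕ) : ℝ) ≤ (g : ℝ) := by
              exact_mod_cast h1
            rw [Nat.cast_prod] at h2
            exact h2
          · exact hθ.le
  calc (2 : ℝ) ^ g.primeFactors.card
      = (2 : ℝ) ^ (g.primeFactors.filter (fun p => p < M)).card *
          (2 : ℝ) ^ (g.primeFactors.filter (fun p => ¬ p < M)).card := by
        rw [← pow_add, hsplit]
    _ ≤ 2 ^ M * (g : ℝ) ^ θ := by
        apply mul_le_mul _ hbig (by positivity) (by positivity)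
        exact pow_le_pow_right₀ (by norm_num) hsmall

/-- the class of `n` modulo `g` in `S` -/
def cl (S : Finset ℕ) (g n : ℕ) : Finset ℕ := S.filter (fun x => (g : ℤ) ∣ (x : ℤ) - n)

open Classical in
/-- the sign pattern -/
noncomputable def pat (q g : ℕ) (e : ℕ → ℕ → ℤ) (m : ℕ → ℤ) (n0 n : ℕ) : Finset ℕ :=
  g.primeFactors.filter (fun p => if p ∣ q then e n p = 1 else
    (p : ℤ) ^ (bb q g (m n0) p + 1) ∣ m n - m n0)

theorem st_EXT : ST_EXT := by
  classical
  intro γ θ hγ hγ1 hθ
  obtain ⟨C, hC1, hC⟩ := omega_le θ hθ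
  refine ⟨C, by linarith, ?_⟩
  intro N q a S e c d k w m hN hq hco hD hS
  have hSN : ∀ n ∈ S, n < N := by
    intro n hn
    have := hD.sub hn
    rw [SS, mem_filter, mem_range] at this
    exact this.1
  obtain ⟨⟨g, n0⟩, hgn, hmax⟩ := Finset.exists_max_image (Icc 1 N ×ˢ S)
    (fun x => ((cl S x.1 x.2).card : ℝ) * (x.1 : ℝ) ^ γ)
    (Finset.Nonempty.product ⟨1, by rw [mem_Icc]; omega⟩ hS)
  rw [mem_product, mem_Icc] at hgn
  obtain ⟨⟨hg1, hgN⟩, hn0⟩ := hgn
  simp only at hg1 hgN hn0 hmax
  have hg0 : (0 : ℝ) < g := by exact_mod_cast hg1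
  have hN0 : (0 : ℝ) < N := by exact_mod_cast hN
  set J0 := cl S g n0 with hJ0
  have hJ0mem : ∀ x, x ∈ J0 ↔ x ∈ S ∧ (g : ℤ) ∣ (x : ℤ) - n0 := by
    intro x
    rw [hJ0, cl, mem_filter]
  -- pigeonhole over the patterns
  have hmaps : ∀ n ∈ J0, pat q g e m n0 n ∈ g.primeFactors.powerset := by
    intro n _
    rw [mem_powerset]
    exact filter_subset _ _
  obtain ⟨P, hP, hPc⟩ : ∃ P ∈ g.primeFactors.powerset,
      J0.card ≤ 2 ^ g.primeFactors.card * (J0.filter (fun n => pat q g e m n0 n = P)).card := by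
    by_contra hcon
    push Not at hcon
    have h1 := Finset.card_eq_sum_card_fiberwise (f := fun n => pat q g e m n0 n) (s := J0)
      (t := g.primeFactors.powerset) (by intro n hn; exact hmaps n hn)
    have h2 : ∑ P ∈ g.primeFactors.powerset,
        2 ^ g.primeFactors.card * (J0.filter (fun n => pat q g e m n0 n = P)).card <
        ∑ P ∈ g.primeFactors.powerset, J0.card := by
      apply sum_lt_sum_of_nonempty
      · exact ⟨∅, empty_mem_powerset _⟩
      · intro P hP
        exact hcon P hP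
    rw [← mul_sum, ← h1, sum_const, card_powerset, smul_eq_mul] at h2
    exact lt_irrefl _ h2
  set J := J0.filter (fun n => pat q g e m n0 n = P) with hJ
  have hJJ0 : J ⊆ J0 := filter_subset _ _
  have hJ0S : J0 ⊆ S := filter_subset _ _
  have hn0J0 : n0 ∈ J0 := by
    rw [hJ0mem]
    exact ⟨hn0, by simp⟩
  have hJpos : 0 < J.card := by
    have h0 : 0 < J0.card := card_pos.mpr ⟨n0, hn0J0⟩
    rcases Nat.eq_zero_or_pos J.card with h | h
    · rw [h, mul_zero] at hPc
      omega
    · exact h
  have hPcR : (J0.card : ℝ) ≤ C * (N : ℝ) ^ θ * J.card := by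
    have h1 : (J0.card : ℝ) ≤ 2 ^ g.primeFactors.card * J.card := by exact_mod_cast hPc
    have h2 := hC g hg1
    have h3 : (g : ℝ) ^ θ ≤ (N : ℝ) ^ θ :=
      Real.rpow_le_rpow hg0.le (by exact_mod_cast hgN) hθ.le
    have h4 : (2 : ℝ) ^ g.primeFactors.card ≤ C * (N : ℝ) ^ θ :=
      h2.trans (mul_le_mul_of_nonneg_left h3 (by linarith))
    exact h1.trans (mul_le_mul_of_nonneg_right h4 (Nat.cast_nonneg _))
  refine ⟨J, hJJ0.trans hJ0S, card_pos.mp hJpos, bb q g (m n0), ?_, ?_⟩
  · -- first bound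
    have h1 := hmax (1, n0) (by rw [mem_product, mem_Icc]; exact ⟨⟨le_refl 1, hN⟩, hn0⟩)
    simp only at h1
    have h2 : cl S 1 n0 = S := by
      rw [cl, filter_eq_self]
      intro x _
      simp
    rw [h2, Nat.cast_one, Real.one_rpow, mul_one] at h1
    have h3 : (g : ℝ) ^ γ ≤ (N : ℝ) ^ γ :=
      Real.rpow_le_rpow hg0.le (by exact_mod_cast hgN) hγ.le
    have hNg : (0 : ℝ) < (N : ℝ) ^ γ := Real.rpow_pos_of_pos hN0 _
    calc (S.card : ℝ) ≤ J0.card * (g : ℝ) ^ γ := h1
      _ ≤ J0.card * (N : ℝ) ^ γ := mul_le_mul_of_nonneg_left h3 (Nat.cast_nonneg _)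
      _ ≤ (C * (N : ℝ) ^ θ * J.card) * (N : ℝ) ^ γ :=
          mul_le_mul_of_nonneg_right hPcR hNg.le
      _ = C * (N : ℝ) ^ (γ + θ) * J.card := by
          rw [Real.rpow_add hN0]
          ring
  · -- the rows
    intro i hi h hsf hodd
    have hh1 : 1 ≤ h := by
      rcases hodd with ⟨t, rfl⟩
      omega
    have hh0 : (0 : ℝ) < h := by exact_mod_cast hh1
    have hiJ0 := hJJ0 hi
    have hiS := hJ0S hiJ0
    have hidv := ((hJ0mem i).mp hiJ0).2
    set R := J.filter (fun j => i ≠ j ∧ ∀ p ∈ h.primeFactors,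
        (d i j).natAbs.factorization p ≠ bb q g (m n0) p) with hR
    -- the rows lie in one class modulo g h
    have hrow : ∀ j ∈ R, ((g * h : ℕ) : ℤ) ∣ (j : ℤ) - i ∧ i ≠ j := by
      intro j hj
      rw [hR, mem_filter] at hj
      obtain ⟨hjJ, hij, hjp⟩ := hj
      refine ⟨?_, hij⟩
      have hjJ0 := hJJ0 hjJ
      have hjS := hJ0S hjJ0
      have hjdv := ((hJ0mem j).mp hjJ0).2
      have hdij := hD.pos i hiS j hjS hij
      have hcd := hD.dat.cd i hiS j hjS hij
      -- the local statement
      have hloc : ∀ p ∈ h.primeFactors,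
          (p : ℤ) ^ (g.factorization p + 1) ∣ (i : ℤ) - j := by
        intro p hp
        have hpp := Nat.prime_of_mem_primeFactors hp
        have hp2 : p ≠ 2 := by
          intro h2
          have := Nat.dvd_of_mem_primeFactors hp
          rw [h2] at this
          rcases hodd with ⟨t, ht⟩
          omega
        by_contra hex
        apply hjp p hp
        have hcopn : ∀ s : ℕ, ¬ p ∣ s → ∀ t : ℕ, IsCoprime ((p : ℤ) ^ t) (s : ℤ) := by
          intro s hs t
          apply IsCoprime.pow_left
          rw [Int.isCoprime_iff_gcd_eq_one, Int.gcd_natCast_natCast]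
          exact (Nat.Prime.coprime_iff_not_dvd hpp).mpr hs
        by_cases hpg : p ∣ g
        · by_cases hpq : p ∣ q
          · -- sign class
            have hb : bb q g (m n0) p = 0 := by
              rw [bb, if_pos (Or.inl hpq)]
            rw [hb]
            have hpOP : p ∈ OP q := by
              rw [OP, mem_erase, Nat.mem_primeFactors]
              exact ⟨hp2, hpp, hpq, by omega⟩
            obtain ⟨f, lam, mu, hf, hlam, hmu, hchi⟩ := hD.dat.chi p hpOP
            have hpgf : p ∈ g.primeFactors := by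
              rw [Nat.mem_primeFactors]
              exact ⟨hpp, hpg, by omega⟩
            have hei : e i p = 1 ↔ e j p = 1 := by
              have h1 : pat q g e m n0 i = P := (mem_filter.mp hi).2
              have h2 : pat q g e m n0 j = P := (mem_filter.mp hjJ).2
              have h3 : p ∈ pat q g e m n0 i ↔ p ∈ pat q g e m n0 j := by rw [h1, h2]
              rw [pat, pat, mem_filter, mem_filter] at h3
              simp only [hpgf, hpq, if_true, true_and] at h3
              exact h3
            have hee : e i p = e j p := by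
              rcases hD.dat.sgn i p with h1 | h1
              · rw [h1, hei.mp h1]
              · rcases hD.dat.sgn j p with h2 | h2
                · rw [h2, hei.mpr h2]
                · rw [h1, h2]
            have hjac := (hchi i hiS j hjS hij).1 hee
            have hne : jacobiSym (d i j) p ≠ 0 := by
              rw [hjac]
              rcases hlam (e i p) with h1 | h1 <;> rcases hf i with h2 | h2 <;>
                rcases hf j with h3 | h3 <;> rw [h1, h2, h3] <;> norm_num
            have hnd : ¬ (p : ℤ) ∣ d i j := by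
              intro hdv
              apply hne
              have : NeZero p := ⟨hpp.ne_zero⟩
              rw [jacobiSym.eq_zero_iff_not_coprime]
              intro hg
              have h1 : (p : ℤ) ∣ (Int.gcd (d i j) (p : ℤ) : ℤ) :=
                Int.dvd_coe_gcd hdv (dvd_refl _)
              rw [hg] at h1
              have h2 : p ∣ 1 := by exact_mod_cast h1
              exact hpp.one_lt.ne' (Nat.dvd_one.mp h2)
            exact fac_eq hpp (by simp) (by simpa using hnd)
          · -- the main case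
            obtain ⟨v', hv'q, hv'⟩ := hD.dv i hiS j hjS hij
            have hgp : (p : ℤ) ^ g.factorization p ∣ (g : ℤ) := by
              exact_mod_cast Nat.ordProj_dvd g p
            have hbdef : bb q g (m n0) p =
                if (p : ℤ) ^ (g.factorization p) ∣ (m n0) ^ 2 then g.factorization p / 2
                else (m n0).natAbs.factorization p := by
              rw [bb, if_neg]
              push Not
              exact ⟨hpq, hpg⟩
            have hpgf : p ∈ g.primeFactors := by
              rw [Nat.mem_primeFactors]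
              exact ⟨hpp, hpg, by omega⟩
            have hfib : (p : ℤ) ^ (bb q g (m n0) p + 1) ∣ m i - m n0 ↔
                (p : ℤ) ^ (bb q g (m n0) p + 1) ∣ m j - m n0 := by
              have h1 : pat q g e m n0 i = P := (mem_filter.mp hi).2
              have h2 : pat q g e m n0 j = P := (mem_filter.mp hjJ).2
              have h3 : p ∈ pat q g e m n0 i ↔ p ∈ pat q g e m n0 j := by rw [h1, h2]
              rw [pat, pat, mem_filter, mem_filter] at h3
              simp only [hpgf, hpq, if_false, true_and] at h3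
              exact h3
            have hL := loc hpp hp2 hpq (hD.sq n0 hn0) (hD.sq i hiS) (hD.sq j hjS)
              (hgp.trans hidv) (hgp.trans hjdv) hex
              (fun hv => by rw [hbdef, if_pos hv]) (fun hv => by rw [hbdef, if_neg hv]) hfib
            rw [← hv'] at hL
            have hv'p : ¬ p ∣ v' := fun h => hpq (h.trans hv'q)
            apply fac_eq hpp
            · exact (hcopn v' hv'p _).dvd_of_dvd_mul_left hL.1
            · intro hcon
              exact hL.2 (Dvd.dvd.mul_left hcon _)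
        · have hb : bb q g (m n0) p = 0 := by
            rw [bb, if_pos (Or.inr hpg)]
          rw [hb]
          have hg0' : g.factorization p = 0 := Nat.factorization_eq_zero_of_not_dvd hpg
          rw [hg0', zero_add, pow_one] at hex
          have hnd : ¬ (p : ℤ) ∣ d i j := by
            intro hdv
            have h1 : (p : ℤ) ∣ k * ((i : ℤ) - j) := by
              rw [← hcd]
              exact Dvd.dvd.mul_left hdv _
            rcases hD.dat.kap with hk | hk
            · rw [hk, one_mul] at h1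
              exact hex h1
            · rw [hk] at h1
              have hc : IsCoprime ((p : ℤ)) (2 : ℤ) := by
                rw [Int.isCoprime_iff_gcd_eq_one]
                have := (Nat.coprime_primes hpp Nat.prime_two).mpr hp2
                exact_mod_cast this
              exact hex (hc.dvd_of_dvd_mul_left h1)
          exact fac_eq hpp (by simp) (by simpa using hnd)
      -- assemble the divisibility
      have hijdv : (g : ℤ) ∣ (i : ℤ) - j := by
        have e1 : (i : ℤ) - j = ((i : ℤ) - n0) - ((j : ℤ) - n0) := by ring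
        rw [e1]
        exact dvd_sub hidv hjdv
      have hne0 : ((i : ℤ) - j).natAbs ≠ 0 := by
        intro h0
        have := Int.natAbs_eq_zero.mp h0
        exact hij (by omega)
      have hgh0 : g * h ≠ 0 := by positivity
      have hmain : g * h ∣ ((i : ℤ) - j).natAbs := by
        rw [← Nat.factorization_prime_le_iff_dvd hgh0 hne0]
        intro p hp
        rw [Nat.factorization_mul (by omega) (by omega)]
        have hsfp : h.factorization p ≤ 1 := hsf.natFactorization_le_one p
        by_cases hph : p ∈ h.primeFactors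
        · have h1 := hloc p hph
          have h2 : p ^ (g.factorization p + 1) ∣ ((i : ℤ) - j).natAbs := by
            rw [← Int.natCast_dvd_natCast, Int.dvd_natAbs]
            exact_mod_cast h1
          have h3 := (hp.pow_dvd_iff_le_factorization hne0).mp h2
          simp only [Finsupp.coe_add, Pi.add_apply]
          omega
        · have h0 : h.factorization p = 0 := by
            rw [← Finsupp.notMem_support_iff, Nat.support_factorization]
            exact hph
          have h1 : g ∣ ((i : ℤ) - j).natAbs := by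
            rw [← Int.natCast_dvd_natCast, Int.dvd_natAbs]
            exact hijdv
          have h2 := (Nat.factorization_prime_le_iff_dvd (by omega) hne0).mpr h1 p hp
          simp only [Finsupp.coe_add, Pi.add_apply]
          omega
      have hmain' : ((g * h : ℕ) : ℤ) ∣ (i : ℤ) - j := by
        rw [← Int.dvd_natAbs]
        exact_mod_cast hmain
      have e2 : (j : ℤ) - i = -((i : ℤ) - j) := by ring
      rw [e2]
      exact (dvd_neg).mpr hmain'
    have hCpos : 0 ≤ C * (N : ℝ) ^ θ * (h : ℝ) ^ (-γ) * J.card := by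
      have : (0 : ℝ) ≤ C := by linarith
      positivity
    rcases R.eq_empty_or_nonempty with hRe | ⟨j, hj⟩
    · rw [hRe, card_empty, Nat.cast_zero]
      exact hCpos
    · have hjr := hrow j hj
      have hjS : j ∈ S := by
        rw [hR, mem_filter] at hj
        exact hJ0S (hJJ0 hj.1)
      have hghN : g * h ≤ N := by
        have h1 : ((g * h : ℕ) : ℤ) ≤ |(j : ℤ) - i| := by
          apply Int.le_of_dvd
          · rw [abs_pos]
            have := hjr.2
            omega
          · rw [dvd_abs]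
            exact hjr.1
        have h2 := hSN i hiS
        have h3 := hSN j hjS
        have h4 : |(j : ℤ) - i| < N := by
          rw [abs_lt]
          constructor <;> omega
        have h5 : ((g * h : ℕ) : ℤ) ≤ (N : ℤ) := by linarith
        exact_mod_cast h5
      have h1 := hmax (g * h, i) (by
        rw [mem_product, mem_Icc]
        exact ⟨⟨Nat.mul_pos hg1 hh1, hghN⟩, hiS⟩)
      simp only at h1
      have h2 : R.card ≤ (cl S (g * h) i).card := by
        apply card_le_card
        intro x hx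
        have hx' := hrow x hx
        rw [hR, mem_filter] at hx
        rw [cl, mem_filter]
        exact ⟨hJ0S (hJJ0 hx.1), hx'.1⟩
      have h3 : (R.card : ℝ) * ((g * h : ℕ) : ℝ) ^ γ ≤ J0.card * (g : ℝ) ^ γ :=
        (mul_le_mul_of_nonneg_right (by exact_mod_cast h2) (by positivity)).trans h1
      have hgγ : (0 : ℝ) < (g : ℝ) ^ γ := Real.rpow_pos_of_pos hg0 _
      have hhγ : (0 : ℝ) < (h : ℝ) ^ γ := Real.rpow_pos_of_pos hh0 _
      have h4 : (R.card : ℝ) * (h : ℝ) ^ γ ≤ J0.card := by
        rw [Nat.cast_mul, Real.mul_rpow hg0.le hh0.le] at h3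
        have h5 : ((R.card : ℝ) * (h : ℝ) ^ γ) * (g : ℝ) ^ γ ≤ J0.card * (g : ℝ) ^ γ := by
          calc ((R.card : ℝ) * (h : ℝ) ^ γ) * (g : ℝ) ^ γ
              = R.card * ((g : ℝ) ^ γ * (h : ℝ) ^ γ) := by ring
            _ ≤ _ := h3
        exact le_of_mul_le_mul_right h5 hgγ
      have h6 := h4.trans hPcR
      rw [Real.rpow_neg hh0.le]
      have h7 : (R.card : ℝ) ≤ (C * (N : ℝ) ^ θ * J.card) / (h : ℝ) ^ γ := by
        rw [le_div_iff₀ hhγ]
        exact h6
      calc (R.card : ℝ) ≤ (C * (N : ℝ) ^ θ * J.card) / (h : ℝ) ^ γ := h7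
        _ = C * (N : ℝ) ^ θ * ((h : ℝ) ^ γ)⁻¹ * J.card := by
            rw [div_eq_mul_inv]
            ring

end Pool.Agent.Helper47.RD8
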